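import Pool.Agent.BlindAE.Walk
import Pool.Agent.BlindPath.Defs

/-!
Words on a board whose origin component is a path: the share of the words of length `L` which miss
the destination from a vertex of the path at distance `x` is at most `u L x`.
-/

namespace Pool.Agent.BlindAE

open Pool.Agent.BlindPath

instance : DecidableEq Dir := fun a b => by
  cases a <;> cases b <;> first | exact isTrue rfl | exact isFalse (by intro h; cases h)

instance : Fintype Dir := ⟨{Dir.E, Dir.N, Dir.W, Dir.S}, fun c => by cases c <;> simp⟩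

theorem sum_dir (F : Dir → ℝ) : ∑ c, F c = F .E + F .N + F .W + F .S := by
  show ∑ c ∈ ({Dir.E, Dir.N, Dir.W, Dir.S} : Finset Dir), F c = _
  rw [Finset.sum_insert (by decide), Finset.sum_insert (by decide), Finset.sum_insert (by decide),
    Finset.sum_singleton]
  ring

/-- The share of the words of length `L` for which the robot misses `d` from `v`. -/
noncomputable def g (M : SimpleGraph V) (d : V) : ℕ → V → ℝ
  | 0, v => if v = d then 0 else 1
  | L + 1, v => if v = d then 0 else (∑ c : Dir, g M d L (step M v c)) / 4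

theorem g_self (M : SimpleGraph V) (d : V) (L : ℕ) : g M d L d = 0 := by
  cases L <;> simp [g]

theorem g_nonneg (M : SimpleGraph V) (d : V) (L : ℕ) (v : V) : 0 ≤ g M d L v := by
  induction L generalizing v with
  | zero => simp only [g]; split_ifs <;> norm_num
  | succ L ih =>
    simp only [g]
    split_ifs
    · exact le_rfl
    · exact div_nonneg (Finset.sum_nonneg fun c _ => ih _) (by norm_num)

theorem vec_inj {a b : Dir} (h : a.vec = b.vec) : a = b := by
  cases a <;> cases b <;> first | rfl | (exfalso; revert h; decide)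

theorem bound_sum {F : Dir → ℝ} {c₁ c₂ : Dir} (h : c₁ ≠ c₂) {x y z : ℝ} (h1 : F c₁ ≤ x)
    (h2 : F c₂ ≤ z) (h3 : ∀ c, c ≠ c₁ → c ≠ c₂ → F c ≤ y) : ∑ c, F c ≤ x + 2 * y + z := by
  have h4 : ∀ c, F c ≤ if c = c₁ then x else if c = c₂ then z else y := by
    intro c
    split_ifs with g1 g2
    · rw [g1]; exact h1
    · rw [g2]; exact h2
    · exact h3 c g1 g2
  refine (Finset.sum_le_sum fun c _ => h4 c).trans ?_
  rw [sum_dir]
  revert h
  cases c₁ <;> cases c₂ <;> intro h <;> first | exact absurd rfl h | (simp; linarith)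

theorem g_le {M : SimpleGraph V} (hM : Board M) {o : V} {I : Set ℤ} {γ : ℤ → V}
    (hP : IsPath M o I γ) {t : ℤ} (ht : t ∈ I) (L : ℕ) {i : ℤ} (hi : i ∈ I) :
    g M (γ t) L (γ i) ≤ u L (i - t).natAbs := by
  induction L generalizing i with
  | zero =>
    rcases eq_or_ne i t with h | h
    · subst h
      rw [g_self]
      exact u_nonneg _ _
    · have h1 : u 0 (i - t).natAbs = 1 := by
        have : (i - t).natAbs ≠ 0 := by omega
        simp [u, this]
      rw [h1]
      simp only [g]
      split_ifs <;> norm_num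
  | succ L ih =>
    rcases eq_or_ne i t with h | h
    · subst h
      rw [g_self]
      exact u_nonneg _ _
    have hne : γ i ≠ γ t := fun h' => h (hP.inj hi ht h')
    obtain ⟨x, hx⟩ : ∃ x, (i - t).natAbs = x + 1 := ⟨(i - t).natAbs - 1, by omega⟩
    rw [hx, u_succ]
    simp only [g]
    rw [if_neg hne]
    have hdiv : ∀ a b : ℝ, a ≤ b → a / 4 ≤ b / 4 := fun a b h => by linarith
    apply hdiv
    -- the neighbour in the direction of `t`
    obtain ⟨s, hs, hst, hsx⟩ : ∃ s : ℤ, (s = 1 ∨ s = -1) ∧ i + s ∈ I ∧ (i + s - t).natAbs = x := by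
      rcases lt_or_gt_of_ne h with h' | h'
      · exact ⟨1, Or.inl rfl, hP.interval.out hi ht ⟨by omega, by omega⟩, by omega⟩
      · exact ⟨-1, Or.inr rfl, hP.interval.out ht hi ⟨by omega, by omega⟩, by omega⟩
    have hadj : M.Adj (γ i) (γ (i + s)) := (hP.adj i hi (i + s) hst).2 (by omega)
    obtain ⟨c₁, hc₁⟩ := hM _ _ hadj
    have hstep1 : step M (γ i) c₁ = γ (i + s) := by
      rw [step, if_pos (by rw [← hc₁]; exact hadj), hc₁]
    -- every step ends on the path
    have hcase : ∀ c, step M (γ i) c = γ i ∨ c = c₁ ∨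
        (i - s ∈ I ∧ step M (γ i) c = γ (i - s) ∧ γ (i - s) = γ i + c.vec) := by
      intro c
      by_cases hc : M.Adj (γ i) (γ i + c.vec)
      · have hr : M.Reachable o (γ i + c.vec) :=
          ((hP.comp (γ i)).2 ⟨i, hi, rfl⟩).trans hc.reachable
        obtain ⟨k, hk, hke⟩ := (hP.comp _).1 hr
        rw [← hke] at hc
        have h1 := (hP.adj i hi k hk).1 hc
        have h2 : k = i + s ∨ k = i - s := by omega
        rcases h2 with h2 | h2
        · right; left
          apply vec_inj
          have h3 : γ i + c.vec = γ i + c₁.vec := by rw [← hke, h2, hc₁]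
          exact add_left_cancel h3
        · right; right
          subst h2
          refine ⟨hk, ?_, hke⟩
          rw [step, if_pos (by rw [← hke]; exact hc), hke]
      · left
        rw [step, if_neg hc]
    have hmono : u L (x + 1) ≤ u L (x + 2) := u_mono_succ L (x + 1)
    have hstay : g M (γ t) L (γ i) ≤ u L (x + 1) := by
      have := ih hi
      rwa [hx] at this
    have haway : i - s ∈ I → g M (γ t) L (γ (i - s)) ≤ u L (x + 2) := by
      intro h1
      have h2 := ih h1
      have h3 : (i - s - t).natAbs = x + 2 := by omega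
      rwa [h3] at h2
    have hF1 : g M (γ t) L (step M (γ i) c₁) ≤ u L x := by
      rw [hstep1]
      have := ih hst
      rwa [hsx] at this
    by_cases hex : ∃ c, c ≠ c₁ ∧ i - s ∈ I ∧ γ (i - s) = γ i + c.vec
    · obtain ⟨c₂, hc₂, hI, he⟩ := hex
      refine bound_sum (c₁ := c₁) (c₂ := c₂) (Ne.symm hc₂) hF1 ?_ ?_
      · rcases hcase c₂ with h1 | h1 | ⟨h1, h2, -⟩
        · rw [h1]; exact hstay.trans hmono
        · exact absurd h1 hc₂
        · rw [h2]; exact haway h1
      · intro c g1 g2
        rcases hcase c with h1 | h1 | ⟨h1, h2, h3⟩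
        · rw [h1]; exact hstay
        · exact absurd h1 g1
        · exfalso
          apply g2
          apply vec_inj
          rw [he] at h3
          exact (add_left_cancel h3).symm
    · obtain ⟨c₂, hc₂⟩ : ∃ c₂ : Dir, c₁ ≠ c₂ := by
        cases c₁
        · exact ⟨.N, by decide⟩
        · exact ⟨.E, by decide⟩
        · exact ⟨.E, by decide⟩
        · exact ⟨.E, by decide⟩
      have hall : ∀ c, c ≠ c₁ → g M (γ t) L (step M (γ i) c) ≤ u L (x + 1) := by
        intro c g1
        rcases hcase c with h1 | h1 | ⟨h1, h2, h3⟩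
        · rw [h1]; exact hstay
        · exact absurd h1 g1
        · exact absurd ⟨c, g1, h1, h3⟩ hex
      exact bound_sum hc₂ hF1 ((hall c₂ (Ne.symm hc₂)).trans hmono) (fun c g1 _ => hall c g1)

end Pool.Agent.BlindAE
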