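import Pool.Agent.BlindAE.Words

/-!
Random mazes: measurability, and the choice of words by averaging.
-/

namespace Pool.Agent.BlindAE

open Pool.Agent.BlindPath MeasureTheory

variable {Ω : Type*} [MeasurableSpace Ω]

instance : Countable Dir := Finite.to_countable

/-- A random vertex of the lattice: its values are events. -/
def RandomVertex (x : Ω → V) : Prop := ∀ v, MeasurableSet {ω | x ω = v}

/-- A random board: the presence of each edge is an event. -/
def RandomBoard (M : Ω → SimpleGraph V) : Prop := ∀ u v, MeasurableSet {ω | (M ω).Adj u v}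

theorem meas_comp {x : Ω → V} (hx : RandomVertex x) {P : Ω → V → Prop}
    (hP : ∀ v, MeasurableSet {ω | P ω v}) : MeasurableSet {ω | P ω (x ω)} := by
  have h1 : {ω | P ω (x ω)} = ⋃ v : V, {ω | x ω = v} ∩ {ω | P ω v} := by
    ext ω
    simp
  rw [h1]
  exact MeasurableSet.iUnion fun v => (hx v).inter (hP v)

theorem meas_fun {x : Ω → V} (hx : RandomVertex x) {F : Ω → V → ℝ}
    (hF : ∀ v, Measurable fun ω => F ω v) : Measurable fun ω => F ω (x ω) := by
  intro s hs
  exact meas_comp hx (P := fun ω v => F ω v ∈ s) (fun v => hF v hs)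

theorem meas_step {M : Ω → SimpleGraph V} (hM : RandomBoard M) {x : Ω → V}
    (hx : RandomVertex x) (c : Dir) : RandomVertex fun ω => step (M ω) (x ω) c := by
  intro w
  refine meas_comp hx (P := fun ω v => step (M ω) v c = w) fun v => ?_
  have h1 : {ω | step (M ω) v c = w} =
      ({ω | (M ω).Adj v (v + c.vec)} ∩ {_ω | v + c.vec = w}) ∪
        ({ω | (M ω).Adj v (v + c.vec)}ᶜ ∩ {_ω | v = w}) := by
    ext ω
    by_cases h : (M ω).Adj v (v + c.vec)
    · simp [step, h]
    · simp [step, h]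
  rw [h1]
  exact ((hM _ _).inter (MeasurableSet.const _)).union
    ((hM _ _).compl.inter (MeasurableSet.const _))

theorem meas_const (v : V) : RandomVertex fun _ : Ω => v := fun _ => MeasurableSet.const _

theorem meas_eq {d : Ω → V} (hd : RandomVertex d) (v : V) : MeasurableSet {ω | v = d ω} := by
  have h1 : {ω | v = d ω} = {ω | d ω = v} := by
    ext ω
    exact eq_comm
  rw [h1]
  exact hd v

theorem meas_g {M : Ω → SimpleGraph V} (hM : RandomBoard M) {d : Ω → V} (hd : RandomVertex d)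
    (L : ℕ) (v : V) : Measurable fun ω => g (M ω) (d ω) L v := by
  induction L generalizing v with
  | zero =>
    simp only [g]
    exact Measurable.ite (meas_eq hd v) measurable_const measurable_const
  | succ L ih =>
    simp only [g]
    refine Measurable.ite (meas_eq hd v) measurable_const (Measurable.div_const ?_ 4)
    exact Finset.measurable_sum _ fun c _ => meas_fun (meas_step hM (meas_const v) c) ih

theorem meas_run {M : Ω → SimpleGraph V} (hM : RandomBoard M) {x : Ω → V}
    (hx : RandomVertex x) (W : List Dir) : RandomVertex fun ω => run (M ω) (x ω) W := by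
  induction W generalizing x with
  | nil => exact hx
  | cons c W ih => exact ih (meas_step hM hx c)

theorem meas_miss {M : Ω → SimpleGraph V} (hM : RandomBoard M) {o d : Ω → V}
    (ho : RandomVertex o) (hd : RandomVertex d) (W : List Dir) :
    MeasurableSet {ω | Miss (M ω) (d ω) (o ω) W} := by
  have h1 : {ω | Miss (M ω) (d ω) (o ω) W} =
      ⋂ W' : List Dir, ⋂ _ : W' <+: W, {ω | run (M ω) (o ω) W' = d ω}ᶜ := by
    ext ω
    simp [Miss]
  rw [h1]
  refine MeasurableSet.iInter fun W' => MeasurableSet.iInter fun _ => MeasurableSet.compl ?_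
  exact meas_comp (meas_run hM ho W') (P := fun ω v => v = d ω) (meas_eq hd)

theorem meas_h {M : Ω → SimpleGraph V} (hM : RandomBoard M) {o d : Ω → V}
    (ho : RandomVertex o) (hd : RandomVertex d) (W : List Dir) (L : ℕ) :
    Measurable fun ω => h (M ω) (d ω) (o ω) W L := by
  classical
  have h1 : (fun ω => h (M ω) (d ω) (o ω) W L) = fun ω =>
      if ω ∈ {ω | Miss (M ω) (d ω) (o ω) W} then g (M ω) (d ω) L (run (M ω) (o ω) W) else 0 := by
    funext ω
    by_cases hm : Miss (M ω) (d ω) (o ω) W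
    · rw [h, if_pos hm, if_pos (show ω ∈ {ω | Miss (M ω) (d ω) (o ω) W} from hm)]
    · rw [h, if_neg hm, if_neg (show ω ∉ {ω | Miss (M ω) (d ω) (o ω) W} from hm)]
  rw [h1]
  exact Measurable.ite (meas_miss hM ho hd W)
    (meas_fun (F := fun ω v => g (M ω) (d ω) L v) (meas_run hM ho W) (meas_g hM hd L))
    measurable_const

/-- The mean share on `S`. -/
noncomputable def Phi (μ : Measure Ω) (S : Set Ω) (M : Ω → SimpleGraph V) (o d : Ω → V)
    (W : List Dir) (L : ℕ) : ENNReal :=
  ∫⁻ ω in S, ENNReal.ofReal (h (M ω) (d ω) (o ω) W L) ∂μ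

theorem phi_step (μ : Measure Ω) (S : Set Ω) {M : Ω → SimpleGraph V} (hM : RandomBoard M)
    {o d : Ω → V} (ho : RandomVertex o) (hd : RandomVertex d) (W : List Dir) (L : ℕ) :
    ∃ c : Dir, Phi μ S M o d (W ++ [c]) L ≤ Phi μ S M o d W (L + 1) := by
  have h1 : ∑ c : Dir, Phi μ S M o d (W ++ [c]) L = 4 * Phi μ S M o d W (L + 1) := by
    simp only [Phi]
    rw [← lintegral_finset_sum _ fun c _ => (meas_h hM ho hd (W ++ [c]) L).ennreal_ofReal,
      ← lintegral_const_mul _ (meas_h hM ho hd W (L + 1)).ennreal_ofReal]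
    refine lintegral_congr fun ω => ?_
    rw [← ENNReal.ofReal_sum_of_nonneg fun c _ => h_nonneg _ _ _ _ _, ← h_succ,
      ENNReal.ofReal_mul (by norm_num)]
    norm_num
  obtain ⟨c, -, hc⟩ := Finset.exists_min_image Finset.univ
    (fun c : Dir => Phi μ S M o d (W ++ [c]) L) ⟨Dir.E, Finset.mem_univ _⟩
  refine ⟨c, ?_⟩
  have h2 : 4 * Phi μ S M o d (W ++ [c]) L ≤ 4 * Phi μ S M o d W (L + 1) := by
    rw [← h1]
    have h3 : ∑ _c' : Dir, Phi μ S M o d (W ++ [c]) L ≤
        ∑ c' : Dir, Phi μ S M o d (W ++ [c']) L :=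
      Finset.sum_le_sum fun c' hc' => hc c' hc'
    have h4 : (Finset.univ : Finset Dir).card = 4 := rfl
    rw [Finset.sum_const, h4, nsmul_eq_mul] at h3
    exact_mod_cast h3
  exact (ENNReal.mul_le_mul_iff_right (by norm_num) (by norm_num)).1 h2

theorem phi_word (μ : Measure Ω) (S : Set Ω) {M : Ω → SimpleGraph V} (hM : RandomBoard M)
    {o d : Ω → V} (ho : RandomVertex o) (hd : RandomVertex d) (L : ℕ) (W : List Dir) :
    ∃ w, Phi μ S M o d (W ++ w) 0 ≤ Phi μ S M o d W L := by
  induction L generalizing W with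
  | zero => exact ⟨[], by rw [List.append_nil]⟩
  | succ L ih =>
    obtain ⟨c, hc⟩ := phi_step μ S hM ho hd W L
    obtain ⟨w, hw⟩ := ih (W ++ [c])
    refine ⟨[c] ++ w, ?_⟩
    rw [← List.append_assoc]
    exact hw.trans hc

theorem phi_zero (μ : Measure Ω) (S : Set Ω) {M : Ω → SimpleGraph V} (hM : RandomBoard M)
    {o d : Ω → V} (ho : RandomVertex o) (hd : RandomVertex d) (W : List Dir) :
    μ ({ω | Miss (M ω) (d ω) (o ω) W} ∩ S) ≤ Phi μ S M o d W 0 := by
  have hm := meas_miss hM ho hd W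
  rw [Phi, ← Measure.restrict_apply hm, ← lintegral_indicator_one hm]
  refine lintegral_mono fun ω => ?_
  by_cases h1 : ω ∈ {ω | Miss (M ω) (d ω) (o ω) W}
  · rw [Set.indicator_of_mem h1]
    rw [h_zero _ _ _ _ h1]
    simp
  · rw [Set.indicator_of_notMem h1]
    exact zero_le

/-- The mazes on which the shares are bounded as for paths, with distance at most `j`. -/
def Tame (M : Ω → SimpleGraph V) (o d : Ω → V) (j : ℕ) : Set Ω :=
  {ω | ∀ (W : List Dir) (L : ℕ), h (M ω) (d ω) (o ω) W L ≤ u L (W.length + j)}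

theorem meas_tame {M : Ω → SimpleGraph V} (hM : RandomBoard M) {o d : Ω → V}
    (ho : RandomVertex o) (hd : RandomVertex d) (j : ℕ) : MeasurableSet (Tame M o d j) := by
  have h1 : Tame M o d j = ⋂ W : List Dir, ⋂ L : ℕ,
      {ω | h (M ω) (d ω) (o ω) W L ≤ u L (W.length + j)} := by
    ext ω
    simp [Tame]
  rw [h1]
  exact MeasurableSet.iInter fun W => MeasurableSet.iInter fun L =>
    measurableSet_le (meas_h hM ho hd W L) measurable_const

theorem tame_mono (M : Ω → SimpleGraph V) (o d : Ω → V) {i j : ℕ} (hij : i ≤ j) :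
    Tame M o d i ⊆ Tame M o d j :=
  fun _ hω W L => (hω W L).trans (u_mono L (by omega))

theorem stage (μ : Measure Ω) [IsProbabilityMeasure μ] {M : Ω → SimpleGraph V}
    (hM : RandomBoard M) {o d : Ω → V} (ho : RandomVertex o) (hd : RandomVertex d)
    (W : List Dir) (j : ℕ) {ε : ℝ} (hε : 0 < ε) :
    ∃ w, w ≠ [] ∧
      μ ({ω | Miss (M ω) (d ω) (o ω) (W ++ w)} ∩ Tame M o d j) ≤ ENNReal.ofReal ε := by
  obtain ⟨L, hL⟩ := exists_u_lt (W.length + j) hε
  obtain ⟨w, hw⟩ := phi_word μ (Tame M o d j) hM ho hd L W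
  refine ⟨w ++ [Dir.E], by simp, ?_⟩
  have h1 : {ω | Miss (M ω) (d ω) (o ω) (W ++ (w ++ [Dir.E]))} ⊆
      {ω | Miss (M ω) (d ω) (o ω) (W ++ w)} := by
    intro ω hω
    rw [← List.append_assoc] at hω
    exact Miss.of_append hω
  calc μ ({ω | Miss (M ω) (d ω) (o ω) (W ++ (w ++ [Dir.E]))} ∩ Tame M o d j)
      ≤ μ ({ω | Miss (M ω) (d ω) (o ω) (W ++ w)} ∩ Tame M o d j) :=
        measure_mono (Set.inter_subset_inter_left _ h1)
    _ ≤ Phi μ (Tame M o d j) M o d (W ++ w) 0 := phi_zero μ _ hM ho hd _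
    _ ≤ Phi μ (Tame M o d j) M o d W L := hw
    _ ≤ ∫⁻ _ω in Tame M o d j, ENNReal.ofReal ε ∂μ := by
        refine setLIntegral_mono' (meas_tame hM ho hd j) fun ω hω => ?_
        exact ENNReal.ofReal_le_ofReal ((hω W L).trans hL.le)
    _ = ENNReal.ofReal ε * μ (Tame M o d j) := setLIntegral_const _ _
    _ ≤ ENNReal.ofReal ε * 1 := by gcongr; exact prob_le_one
    _ = ENNReal.ofReal ε := mul_one _

end Pool.Agent.BlindAE
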