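import Mathlib

/-!
The lazy symmetric walk on `{0, 1, 2, ...}` hits `0`: the share `u L x` of the instruction words of
length `L` which miss `0` from `x` tends to `0`.
-/

namespace Pool.Agent.BlindAE

open Filter Topology

/-- The share of the words of length `L` which miss `0` from `x`. -/
noncomputable def u : ℕ → ℕ → ℝ
  | 0, x => if x = 0 then 0 else 1
  | L + 1, x => if x = 0 then 0 else (u L (x - 1) + 2 * u L x + u L (x + 1)) / 4

theorem u_zero (L : ℕ) : u L 0 = 0 := by
  cases L <;> simp [u]

theorem u_succ (L x : ℕ) : u (L + 1) (x + 1) = (u L x + 2 * u L (x + 1) + u L (x + 2)) / 4 := by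
  simp [u]

theorem u_nonneg (L x : ℕ) : 0 ≤ u L x := by
  induction L generalizing x with
  | zero => simp only [u]; split_ifs <;> norm_num
  | succ L ih =>
    cases x with
    | zero => rw [u_zero]
    | succ x =>
      rw [u_succ]
      have := ih x; have := ih (x + 1); have := ih (x + 2)
      linarith

theorem u_le_one (L x : ℕ) : u L x ≤ 1 := by
  induction L generalizing x with
  | zero => simp only [u]; split_ifs <;> norm_num
  | succ L ih =>
    cases x with
    | zero => rw [u_zero]; norm_num
    | succ x =>
      rw [u_succ]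
      have := ih x; have := ih (x + 1); have := ih (x + 2)
      linarith

theorem u_mono_succ (L x : ℕ) : u L x ≤ u L (x + 1) := by
  induction L generalizing x with
  | zero => cases x <;> simp [u]
  | succ L ih =>
    cases x with
    | zero => rw [u_zero]; exact u_nonneg _ _
    | succ x =>
      rw [u_succ, u_succ]
      have := ih x; have := ih (x + 1); have := ih (x + 2)
      linarith

theorem u_mono (L : ℕ) : Monotone (u L) := monotone_nat_of_le_succ (u_mono_succ L)

theorem u_anti_succ (L x : ℕ) : u (L + 1) x ≤ u L x := by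
  induction L generalizing x with
  | zero =>
    cases x with
    | zero => rw [u_zero, u_zero]
    | succ x =>
      have : u 0 (x + 1) = 1 := by simp [u]
      rw [this]
      exact u_le_one _ _
  | succ L ih =>
    cases x with
    | zero => rw [u_zero, u_zero]
    | succ x =>
      have e1 := u_succ (L + 1) x
      have e2 := u_succ L x
      have := ih x; have := ih (x + 1); have := ih (x + 2)
      rw [e1]
      conv_rhs => rw [e2]
      linarith

theorem u_tendsto (x : ℕ) : Tendsto (fun L => u L x) atTop (𝓝 0) := by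
  have hanti : ∀ x, Antitone (fun L => u L x) := fun x =>
    antitone_nat_of_succ_le (fun L => u_anti_succ L x)
  have hbdd : ∀ x, BddBelow (Set.range (fun L => u L x)) := fun x =>
    ⟨0, by rintro _ ⟨L, rfl⟩; exact u_nonneg L x⟩
  set h : ℕ → ℝ := fun x => ⨅ L, u L x with hh
  have hlim : ∀ x, Tendsto (fun L => u L x) atTop (𝓝 (h x)) := fun x =>
    tendsto_atTop_ciInf (hanti x) (hbdd x)
  have h0 : h 0 = 0 := by
    have h1 : Tendsto (fun L => u L 0) atTop (𝓝 0) := by
      simp only [u_zero]
      exact tendsto_const_nhds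
    exact tendsto_nhds_unique (hlim 0) h1
  have hrec : ∀ x, h (x + 2) = 2 * h (x + 1) - h x := by
    intro x
    have h1 : Tendsto (fun L => u (L + 1) (x + 1)) atTop (𝓝 (h (x + 1))) :=
      (hlim (x + 1)).comp (tendsto_add_atTop_nat 1)
    have h2 : Tendsto (fun L => (u L x + 2 * u L (x + 1) + u L (x + 2)) / 4) atTop
        (𝓝 ((h x + 2 * h (x + 1) + h (x + 2)) / 4)) :=
      (((hlim x).add ((hlim (x + 1)).const_mul 2)).add (hlim (x + 2))).div_const 4
    have h3 := tendsto_nhds_unique h1 (by simpa only [u_succ] using h2)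
    linarith
  have hlin : ∀ x : ℕ, h x = x * h 1 ∧ h (x + 1) = (x + 1) * h 1 := by
    intro x
    induction x with
    | zero => simp [h0]
    | succ x ih =>
      refine ⟨by push_cast; exact ih.2, ?_⟩
      have := hrec x
      rw [this, ih.1, ih.2]
      push_cast
      ring
  have hle : ∀ x, h x ≤ 1 := fun x => le_of_tendsto' (hlim x) (fun L => u_le_one L x)
  have hge : ∀ x, 0 ≤ h x := fun x => ge_of_tendsto' (hlim x) (fun L => u_nonneg L x)
  have h1 : h 1 = 0 := by
    by_contra hne
    have hpos : 0 < h 1 := lt_of_le_of_ne (hge 1) (Ne.symm hne)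
    obtain ⟨n, hn⟩ := exists_nat_gt (1 / h 1)
    have h2 := hle n
    rw [(hlin n).1] at h2
    rw [div_lt_iff₀ hpos] at hn
    linarith
  have h2 : h x = 0 := by rw [(hlin x).1, h1, mul_zero]
  rw [← h2]
  exact hlim x

theorem exists_u_lt (x : ℕ) {ε : ℝ} (hε : 0 < ε) : ∃ L, u L x < ε :=
  ((u_tendsto x).eventually (gt_mem_nhds hε)).exists

end Pool.Agent.BlindAE
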