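import Pool.Agent.BlindAE.Maze

/-!
Words, the vertices they lead to, and whether they miss the destination.
-/

namespace Pool.Agent.BlindAE

open Pool.Agent.BlindPath

/-- The vertex to which the word `W` leads from `v`. -/
noncomputable def run (M : SimpleGraph V) (v : V) (W : List Dir) : V := W.foldl (step M) v

theorem run_concat (M : SimpleGraph V) (v : V) (W : List Dir) (c : Dir) :
    run M v (W ++ [c]) = step M (run M v W) c := by
  simp [run]

theorem run_cons (M : SimpleGraph V) (v : V) (W : List Dir) (c : Dir) :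
    run M v (c :: W) = run M (step M v c) W := rfl

/-- The robot with the word `W` is never at `d`. -/
def Miss (M : SimpleGraph V) (d v : V) (W : List Dir) : Prop := ∀ W', W' <+: W → run M v W' ≠ d

theorem miss_concat {M : SimpleGraph V} {d v : V} {W : List Dir} {c : Dir} :
    Miss M d v (W ++ [c]) ↔ Miss M d v W ∧ run M v (W ++ [c]) ≠ d := by
  constructor
  · intro h
    exact ⟨fun W' hW' => h W' (hW'.trans (List.prefix_append W [c])), h _ (List.prefix_refl _)⟩
  · rintro ⟨h1, h2⟩ W' hW'
    rcases List.prefix_concat_iff.1 hW' with h | h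
    · rw [h]; exact h2
    · exact h1 W' h

theorem Miss.of_append {M : SimpleGraph V} {d v : V} {W W' : List Dir}
    (h : Miss M d v (W ++ W')) : Miss M d v W :=
  fun W'' hW => h W'' (hW.trans (List.prefix_append W W'))

open Classical in
/-- The share of the continuations of `W` of length `L` which miss `d` (zero if `W` does not). -/
noncomputable def h (M : SimpleGraph V) (d v : V) (W : List Dir) (L : ℕ) : ℝ :=
  if Miss M d v W then g M d L (run M v W) else 0

theorem h_nonneg (M : SimpleGraph V) (d v : V) (W : List Dir) (L : ℕ) : 0 ≤ h M d v W L := by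
  rw [h]
  split_ifs
  · exact g_nonneg _ _ _ _
  · exact le_rfl

theorem h_succ (M : SimpleGraph V) (d v : V) (W : List Dir) (L : ℕ) :
    4 * h M d v W (L + 1) = ∑ c : Dir, h M d v (W ++ [c]) L := by
  by_cases hm : Miss M d v W
  · have h1 : run M v W ≠ d := hm W (List.prefix_refl _)
    have h2 : ∀ c : Dir, h M d v (W ++ [c]) L = g M d L (step M (run M v W) c) := by
      intro c
      by_cases hc : run M v (W ++ [c]) = d
      · have h3 : ¬ Miss M d v (W ++ [c]) := fun h' => (miss_concat.1 h').2 hc
        rw [h, if_neg h3, ← run_concat, hc, g_self]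
      · have h3 : Miss M d v (W ++ [c]) := miss_concat.2 ⟨hm, hc⟩
        rw [h, if_pos h3, run_concat]
    simp only [h2]
    rw [h, if_pos hm, g, if_neg h1]
    ring
  · have h2 : ∀ c : Dir, h M d v (W ++ [c]) L = 0 := by
      intro c
      rw [h, if_neg (fun h' => hm (miss_concat.1 h').1)]
    simp only [h2]
    rw [h, if_neg hm]
    simp

theorem h_zero (M : SimpleGraph V) (d v : V) (W : List Dir) (hm : Miss M d v W) :
    h M d v W 0 = 1 := by
  rw [h, if_pos hm, g, if_neg (hm W (List.prefix_refl _))]

theorem run_path {M : SimpleGraph V} {o : V} {I : Set ℤ} {γ : ℤ → V} (hP : IsPath M o I γ)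
    (W : List Dir) : ∃ i ∈ I, γ i = run M o W ∧ i.natAbs ≤ W.length := by
  induction W using List.reverseRecOn with
  | nil => exact ⟨0, hP.zero_mem, hP.start, by simp⟩
  | append_singleton W c ih =>
    obtain ⟨i, hi, h1, h2⟩ := ih
    rw [run_concat, ← h1, List.length_append, List.length_singleton]
    by_cases hc : M.Adj (γ i) (γ i + c.vec)
    · have hr : M.Reachable o (γ i + c.vec) :=
        ((hP.comp (γ i)).2 ⟨i, hi, rfl⟩).trans hc.reachable
      obtain ⟨k, hk, hke⟩ := (hP.comp _).1 hr
      have h3 : M.Adj (γ i) (γ k) := by rw [hke]; exact hc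
      have h4 := (hP.adj i hi k hk).1 h3
      refine ⟨k, hk, ?_, by omega⟩
      rw [step, if_pos hc, hke]
    · refine ⟨i, hi, ?_, by omega⟩
      rw [step, if_neg hc]

theorem h_le {M : SimpleGraph V} (hM : Board M) {o : V} {I : Set ℤ} {γ : ℤ → V}
    (hP : IsPath M o I γ) {t : ℤ} (ht : t ∈ I) (W : List Dir) (L : ℕ) :
    h M (γ t) o W L ≤ u L (W.length + t.natAbs) := by
  rw [h]
  split_ifs
  · obtain ⟨i, hi, h1, h2⟩ := run_path hP W
    rw [← h1]
    exact (g_le hM hP ht L hi).trans (u_mono L (by omega))
  · exact u_nonneg _ _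

/-- The letters of an algorithm with given prefixes. -/
theorem exists_algo (W : ℕ → List Dir) (hW : ∀ j, ∃ w, w ≠ [] ∧ W (j + 1) = W j ++ w) :
    ∃ A : ℕ → Dir, ∀ (M : SimpleGraph V) (o d : V), ¬ Solves A M o d →
      ∀ j, Miss M d o (W j) := by
  have hpre : ∀ i j, i ≤ j → W i <+: W j := by
    intro i j hij
    induction j, hij using Nat.le_induction with
    | base => exact List.prefix_refl _
    | succ j _ ih =>
      obtain ⟨w, -, hw⟩ := hW j
      rw [hw]
      exact ih.trans (List.prefix_append _ _)
  have hlen : ∀ j, j ≤ (W j).length := by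
    intro j
    induction j with
    | zero => exact Nat.zero_le _
    | succ j ih =>
      obtain ⟨w, hw0, hw⟩ := hW j
      have := List.length_pos_iff.2 hw0
      rw [hw, List.length_append]
      omega
  have hget : ∀ (l₁ l₂ : List Dir) (k : ℕ), l₁ <+: l₂ → k < l₁.length →
      l₂.getD k Dir.E = l₁.getD k Dir.E := by
    rintro l₁ _ k ⟨s, rfl⟩ hk
    exact List.getD_append _ _ _ _ hk
  set A : ℕ → Dir := fun n => (W (n + 1)).getD n Dir.E with hA
  have hAW : ∀ j k, k < (W j).length → A k = (W j).getD k Dir.E := by
    intro j k hk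
    have h1 : k < (W (k + 1)).length := lt_of_lt_of_le (Nat.lt_succ_self k) (hlen (k + 1))
    rcases le_total j (k + 1) with h | h
    · exact hget _ _ k (hpre _ _ h) hk
    · exact (hget _ _ k (hpre _ _ h) h1).symm
  refine ⟨A, fun M o d hns j W' hW' => ?_⟩
  have hpos : ∀ n, n ≤ (W j).length → pos M o A n = run M o ((W j).take n) := by
    intro n
    induction n with
    | zero => intro _; simp [pos, run]
    | succ n ih =>
      intro hn
      have hlt : n < (W j).length := hn
      have h1 : (W j).take (n + 1) = (W j).take n ++ [A n] := by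
        rw [List.take_succ, hAW j n hlt, List.getD_eq_getElem _ _ hlt,
          List.getElem?_eq_getElem hlt]
        rfl
      rw [h1, run_concat, pos, ih (by omega)]
  have h1 := List.prefix_iff_eq_take.1 hW'
  rw [h1, ← hpos _ hW'.length_le]
  exact fun h' => hns ⟨_, h'⟩

end Pool.Agent.BlindAE
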